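import Mathlib
import Pool.Agent.H.MP_c8cc4c_co.Book
import Pool.Agent.H.MP_c8cc4c_co.Hub.Full

/-!
# Book thickness of k-planar graphs

For every `k` there is a number `b` such that every finite graph which has a `k`-planar drawing has a
book embedding with `b` pages.

Proof in outline.
1. (Hub/D) The planarisation is made a triangulated sphere `M`; the edges of the graph become paths of
   length at most `4 (k + 1)` between vertices of `M`, every vertex of `M` is an interior vertex of at
   most 8 of these paths. (The degree in the ends is unbounded.)
2. `o` = a vertex on no path, `f` = distance to `o`, breadth first tree with its tour (Hub/T), `H = 3l+1`.
   The regions of level `j` are the components of `f > j H`. Every vertex which sees a region (it is in it or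
   an end of a path which meets it) is assigned to a region which it sees, such that for every region
   boundedly many vertices which see it are assigned to other ones (Hub/A; uses Euler's formula and
   the exclusion of `K_{3,4}`, Hub/M). The blocks of the regions are laminar (Hub/Lev).
3. The blocks are intervals of the order; the vertices of a block are ordered by the tour rotated to
   start at the root of the region, increasing for even levels and decreasing for odd levels. Two
   edges of one region which cross are in conflict: their paths (with the paths from the ends to the
   region, child regions contracted) meet, or one contains an ancestor of an end of the other one
   (planar lemma Hub/PL, contracted tour Hub/TSc, Hub/O).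
4. The conflicts of the edges of a level can be coloured with boundedly many colours (Hub/C). Page = colour and
   parity of the level (Hub/Main).
-/

namespace Pool.Agent.Results.MP_c8cc4c_co.Full

open Pool.Agent.H.MP_c8cc4c_co

theorem result (k : ℕ) :
    ∃ b : ℕ, ∀ (W : Type) [Fintype W] (G : SimpleGraph W), KPlanar k G → BookLE G b :=
  Hub.full k

end Pool.Agent.Results.MP_c8cc4c_co.Full
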